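import Pool.Agent.SPV.StmtsL

/-!
# Squad SPV, row LGC (helper91): exceptional primes
-/

set_option autoImplicit false

namespace Pool.Agent.SPV.H91

open Finset Filter

theorem nr_le (p q : ℕ) (hp : p.Prime) (hq : 0 < q) (A : Finset ℕ) (β : ℕ → ZMod p) :
    nr p q A β ≤ q := by
  haveI : Fact p.Prime := ⟨hp⟩
  unfold nr
  have h1 : {z : ZMod p | z ^ q = 1 ∧ ∑ i ∈ A, β i * z ^ i = 0} ⊆
      ((Polynomial.nthRoots q (1 : ZMod p)).toFinset : Set (ZMod p)) := by
    intro z hz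
    simp only [Finset.mem_coe, Multiset.mem_toFinset]
    exact (Polynomial.mem_nthRoots hq).mpr hz.1
  refine (Set.ncard_le_ncard h1 (Finset.finite_toSet _)).trans ?_
  rw [Set.ncard_coe_finset]
  exact (Multiset.toFinset_card_le _).trans (Polynomial.card_nthRoots q 1)

theorem ev1 (ε δ : ℝ) (hε : 0 < ε) (hδ : δ < 1) : ∀ᶠ x : ℝ in atTop, x ^ δ ≤ ε / 2 * x := by
  have h1 := (tendsto_rpow_atTop (by linarith : 0 < 1 - δ)).eventually_ge_atTop (2 / ε)
  filter_upwards [h1, eventually_gt_atTop 0] with x hx hx0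
  have h2 : x = x ^ δ * x ^ (1 - δ) := by
    rw [← Real.rpow_add hx0]; simp
  have h3 : 0 < x ^ δ := Real.rpow_pos_of_pos hx0 _
  have h4 : x ^ δ * (2 / ε) ≤ x := by
    calc x ^ δ * (2 / ε) ≤ x ^ δ * x ^ (1 - δ) := mul_le_mul_of_nonneg_left hx h3.le
      _ = x := h2.symm
  have h5 : x ^ δ * (2 / ε) * (ε / 2) ≤ x * (ε / 2) := mul_le_mul_of_nonneg_right h4 (by positivity)
  have h6 : x ^ δ * (2 / ε) * (ε / 2) = x ^ δ := by field_simp
  linarith

theorem ev2 (c κ : ℝ) (hκ : 0 < κ) : ∀ᶠ x : ℝ in atTop, c + 4 * Real.log x ≤ x ^ κ := by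
  have h1 := (isLittleO_log_rpow_atTop hκ).bound (show (0 : ℝ) < 1 / 8 by norm_num)
  have h2 := (tendsto_rpow_atTop hκ).eventually_ge_atTop (2 * c)
  filter_upwards [h1, h2, eventually_ge_atTop 1] with x hx1 hx2 hx3
  have h3 : 0 ≤ x ^ κ := Real.rpow_nonneg (by linarith) _
  rw [Real.norm_of_nonneg (Real.log_nonneg hx3), Real.norm_of_nonneg h3] at hx1
  linarith

theorem lgc (hmin : MinStmt) : LgcStmt := by
  classical
  intro ε δ κ hε hδ hδ1 hκ
  set M : ℝ := max (2 / ε) 1 with hM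
  have hM1 : 1 ≤ M := le_max_right _ _
  have hMe : 2 / ε ≤ M := le_max_left _ _
  obtain ⟨N, hN⟩ := ((ev1 ε δ hε hδ1).and (ev2 (Real.log (4 * M)) κ hκ)).exists_forall_of_atTop
  refine ⟨⌈N⌉₊, fun q hq hNq P hP => ?_⟩
  have hq2 : 2 ≤ q := hq.two_le
  have hqR : (2 : ℝ) ≤ q := by exact_mod_cast hq2
  have hq0 : (0 : ℝ) < q := by linarith
  obtain ⟨he1, he2⟩ := hN (q : ℝ) (Nat.ceil_le.mp hNq)
  rcases P.eq_empty_or_nonempty with hPe | hPne
  · rw [hPe, sum_empty]; exact (Real.exp_pos _).le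
  set D : ℕ := ⌊(q : ℝ) ^ δ⌋₊ with hD
  have hqδ1 : 1 ≤ (q : ℝ) ^ δ := Real.one_le_rpow (by linarith) hδ.le
  have hDle : (D : ℝ) ≤ (q : ℝ) ^ δ := Nat.floor_le (by linarith)
  have hDq : D ≤ q := by
    have h1 : (q : ℝ) ^ δ ≤ (q : ℝ) ^ (1 : ℝ) := Real.rpow_le_rpow_of_exponent_le (by linarith) hδ1.le
    rw [Real.rpow_one] at h1
    exact_mod_cast hDle.trans h1
  set r : ℕ := ⌈ε * q⌉₊ with hr
  have hrq : r ≤ q := by
    obtain ⟨p, hp⟩ := hPne
    obtain ⟨hpp, -, A, -, -, -, β, -, h1⟩ := hP p hp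
    have h2 : r ≤ nr p q A β := Nat.ceil_le.mpr h1.le
    exact h2.trans (nr_le p q hpp (by omega) A β)
  have hrR : ε * q ≤ r := Nat.le_ceil _
  -- the bound for one exponent set
  have hone : ∀ A : Finset ℕ, A ⊆ range q → A.Nonempty → A.card ≤ D → ∀ Q : Finset ℕ,
      (∀ p ∈ Q, p.Prime ∧ q ∣ p - 1 ∧ ∃ β : ℕ → ZMod p, (∃ i ∈ A, β i ≠ 0) ∧ r ≤ nr p q A β) →
      ∑ p ∈ Q, Real.log p ≤ (q : ℝ) ^ 2 * (2 * M ^ D) := by
    intro A hA hAne hAD Q hQ
    have h1 := hmin q hq A hA hAne Q r hrq hQ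
    set k := A.card with hk
    have hkR : (k : ℝ) ≤ ε / 2 * q := by
      calc (k : ℝ) ≤ D := by exact_mod_cast hAD
        _ ≤ (q : ℝ) ^ δ := hDle
        _ ≤ ε / 2 * q := he1
    have hkr : k ≤ r := by
      have : (k : ℝ) ≤ r := by nlinarith
      exact_mod_cast this
    have hc0 : 0 < r.choose k := Nat.choose_pos hkr
    have hc0R : (0 : ℝ) < (r.choose k : ℝ) := by exact_mod_cast hc0
    have hfac0 : (0 : ℝ) < (k.factorial : ℝ) := by exact_mod_cast Nat.factorial_pos k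
    -- the quotient of the binomials
    have hquo : (q.choose k : ℝ) ≤ M ^ k * r.choose k := by
      have h2 : (q.descFactorial k : ℝ) ≤ (q : ℝ) ^ k := by exact_mod_cast Nat.descFactorial_le_pow q k
      have h3 : ((r + 1 - k : ℕ) : ℝ) ^ k ≤ (r.descFactorial k : ℝ) := by
        exact_mod_cast Nat.pow_sub_le_descFactorial r k
      have h4 : (q : ℝ) ≤ M * ((r + 1 - k : ℕ) : ℝ) := by
        have h5 : ((r + 1 - k : ℕ) : ℝ) = (r : ℝ) + 1 - k := by
          rw [Nat.cast_sub (by omega)]; push_cast; ring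
        rw [h5]
        have h6 : ε / 2 * q ≤ (r : ℝ) + 1 - k := by linarith
        have h7 : 0 ≤ (r : ℝ) + 1 - k := by nlinarith
        calc (q : ℝ) = 2 / ε * (ε / 2 * q) := by field_simp
          _ ≤ 2 / ε * ((r : ℝ) + 1 - k) := mul_le_mul_of_nonneg_left h6 (by positivity)
          _ ≤ M * ((r : ℝ) + 1 - k) := mul_le_mul_of_nonneg_right hMe h7
      have h8 : (q.descFactorial k : ℝ) ≤ M ^ k * r.descFactorial k := by
        calc (q.descFactorial k : ℝ) ≤ (q : ℝ) ^ k := h2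
          _ ≤ (M * ((r + 1 - k : ℕ) : ℝ)) ^ k := pow_le_pow_left₀ hq0.le h4 k
          _ = M ^ k * ((r + 1 - k : ℕ) : ℝ) ^ k := mul_pow _ _ _
          _ ≤ M ^ k * r.descFactorial k := mul_le_mul_of_nonneg_left h3 (by positivity)
      rw [Nat.descFactorial_eq_factorial_mul_choose, Nat.descFactorial_eq_factorial_mul_choose] at h8
      push_cast at h8
      have h9 : (k.factorial : ℝ) * q.choose k ≤ k.factorial * (M ^ k * r.choose k) := by
        calc _ ≤ M ^ k * (k.factorial * r.choose k) := h8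
          _ = _ := by ring
      exact le_of_mul_le_mul_left h9 hfac0
    have hlogf0 : 0 ≤ Real.log (k.factorial) := Real.log_nonneg (by exact_mod_cast Nat.factorial_pos k)
    have hlogf : Real.log (k.factorial) ≤ (q : ℝ) ^ 2 := by
      have h2 : (k.factorial : ℝ) ≤ (k : ℝ) ^ k := by exact_mod_cast Nat.factorial_le_pow k
      have hkp : 0 < k := card_pos.mpr hAne
      have hkpR : (0 : ℝ) < k := by exact_mod_cast hkp
      have h3 : Real.log (k.factorial) ≤ k * Real.log k := by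
        calc Real.log (k.factorial) ≤ Real.log ((k : ℝ) ^ k) := Real.log_le_log hfac0 h2
          _ = k * Real.log k := Real.log_pow _ _
      have h4 : Real.log k ≤ k := (Real.log_le_sub_one_of_pos hkpR).trans (by linarith)
      have h5 : (k : ℝ) ≤ q := by exact_mod_cast (hkr.trans hrq)
      calc Real.log (k.factorial) ≤ k * Real.log k := h3
        _ ≤ k * k := mul_le_mul_of_nonneg_left h4 hkpR.le
        _ ≤ q * q := mul_le_mul h5 h5 hkpR.le hq0.le
        _ = (q : ℝ) ^ 2 := by ring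
    have hr0 : (0 : ℝ) ≤ r := Nat.cast_nonneg _
    have hMk : M ^ k ≤ M ^ D := pow_le_pow_right₀ hM1 hAD
    have hMD : 1 ≤ M ^ D := one_le_pow₀ hM1
    have h2 : (q : ℝ) * (r.choose k) + (q - r) * (q.choose k) ≤ (2 * M ^ D) * (q * r.choose k) := by
      have h3 : ((q : ℝ) - r) * (q.choose k) ≤ q * (M ^ D * r.choose k) := by
        have h4 : (q : ℝ) - r ≤ q := by linarith
        have h5 : (0 : ℝ) ≤ (q.choose k : ℝ) := Nat.cast_nonneg _
        calc ((q : ℝ) - r) * (q.choose k) ≤ q * (q.choose k) := mul_le_mul_of_nonneg_right h4 h5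
          _ ≤ q * (M ^ k * r.choose k) := mul_le_mul_of_nonneg_left hquo hq0.le
          _ ≤ q * (M ^ D * r.choose k) :=
            mul_le_mul_of_nonneg_left (mul_le_mul_of_nonneg_right hMk hc0R.le) hq0.le
      have h6 : (q : ℝ) * (r.choose k) ≤ q * (M ^ D * r.choose k) := by
        refine mul_le_mul_of_nonneg_left ?_ hq0.le
        calc (r.choose k : ℝ) = 1 * r.choose k := (one_mul _).symm
          _ ≤ M ^ D * r.choose k := mul_le_mul_of_nonneg_right hMD hc0R.le
      calc _ ≤ q * (M ^ D * r.choose k) + q * (M ^ D * r.choose k) := add_le_add h6 h3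
        _ = _ := by ring
    have hX : (0 : ℝ) < q * r.choose k := mul_pos hq0 hc0R
    have h3 : (∑ p ∈ Q, Real.log p) * (q * r.choose k) ≤ ((q : ℝ) ^ 2 * (2 * M ^ D)) * (q * r.choose k) := by
      calc _ ≤ Real.log (k.factorial) * (q * (r.choose k) + (q - r) * (q.choose k)) := h1
        _ ≤ Real.log (k.factorial) * ((2 * M ^ D) * (q * r.choose k)) :=
          mul_le_mul_of_nonneg_left h2 hlogf0
        _ ≤ (q : ℝ) ^ 2 * ((2 * M ^ D) * (q * r.choose k)) :=
          mul_le_mul_of_nonneg_right hlogf (by positivity)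
        _ = _ := by ring
    exact le_of_mul_le_mul_right h3 hX
  -- split according to the exponent set
  have hP' : ∀ p ∈ P, ∃ A : Finset ℕ, A ⊆ range q ∧ A.Nonempty ∧ A.card ≤ D ∧
      (p.Prime ∧ q ∣ p - 1 ∧ ∃ β : ℕ → ZMod p, (∃ i ∈ A, β i ≠ 0) ∧ r ≤ nr p q A β) := by
    intro p hp
    obtain ⟨hpp, hqp, A, hA1, hA2, hA3, β, hβ, h1⟩ := hP p hp
    exact ⟨A, hA1, hA2, Nat.le_floor hA3, hpp, hqp, β, hβ, Nat.ceil_le.mpr h1.le⟩
  choose! Af hAf using hP'
  set T : Finset (Finset ℕ) := (range (D + 1)).biUnion fun k => (range q).powersetCard k with hT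
  have hmaps : ∀ p ∈ P, Af p ∈ T := by
    intro p hp
    rw [hT, mem_biUnion]
    exact ⟨(Af p).card, mem_range.mpr (by have := (hAf p hp).2.2.1; omega),
      mem_powersetCard.mpr ⟨(hAf p hp).1, rfl⟩⟩
  have hTcard : (T.card : ℝ) ≤ (2 * q) * (q : ℝ) ^ D := by
    have h1 : T.card ≤ (D + 1) * q ^ D := by
      refine card_biUnion_le.trans ?_
      calc ∑ k ∈ range (D + 1), ((range q).powersetCard k).card ≤ ∑ k ∈ range (D + 1), q ^ D := by
            refine sum_le_sum fun k hk => ?_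
            rw [card_powersetCard, card_range]
            exact (Nat.choose_le_pow q k).trans (Nat.pow_le_pow_right (by omega)
              (by have := mem_range.mp hk; omega))
        _ = (D + 1) * q ^ D := by rw [sum_const, card_range, smul_eq_mul]
    have h2 : (D + 1) * q ^ D ≤ (2 * q) * q ^ D := Nat.mul_le_mul_right _ (by omega)
    exact_mod_cast h1.trans h2
  have hB0 : (0 : ℝ) ≤ (q : ℝ) ^ 2 * (2 * M ^ D) := by positivity
  have hsum : ∑ p ∈ P, Real.log p ≤ T.card * ((q : ℝ) ^ 2 * (2 * M ^ D)) := by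
    rw [← sum_fiberwise_of_maps_to hmaps]
    calc _ ≤ ∑ A ∈ T, ((q : ℝ) ^ 2 * (2 * M ^ D)) := by
          refine sum_le_sum fun A _ => ?_
          rcases (P.filter fun p => Af p = A).eq_empty_or_nonempty with h0 | ⟨p₀, hp₀⟩
          · rw [h0, sum_empty]; exact hB0
          · have hp₀' := mem_filter.mp hp₀
            have h1 := hAf p₀ hp₀'.1
            rw [hp₀'.2] at h1
            refine hone A h1.1 h1.2.1 h1.2.2.1 _ fun p hp => ?_
            have hp' := mem_filter.mp hp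
            have h2 := hAf p hp'.1
            rw [hp'.2] at h2
            exact h2.2.2.2
      _ = T.card * ((q : ℝ) ^ 2 * (2 * M ^ D)) := by rw [sum_const, nsmul_eq_mul]
  refine hsum.trans ?_
  have hM0 : 0 < M := by linarith
  have h1 : (T.card : ℝ) * ((q : ℝ) ^ 2 * (2 * M ^ D)) ≤ (2 * q) * (q : ℝ) ^ D * ((q : ℝ) ^ 2 * (2 * M ^ D)) :=
    mul_le_mul_of_nonneg_right hTcard hB0
  refine h1.trans ?_
  have h2 : (2 * q) * (q : ℝ) ^ D * ((q : ℝ) ^ 2 * (2 * M ^ D)) =
      Real.exp (Real.log 4 + 3 * Real.log q + D * (Real.log q + Real.log M)) := by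
    rw [Real.exp_add, Real.exp_add, Real.exp_log (by norm_num)]
    have h3 : Real.exp (3 * Real.log q) = (q : ℝ) ^ 3 := by
      rw [mul_comm, Real.exp_mul, Real.exp_log hq0]
      norm_cast
    have h4 : Real.exp (D * (Real.log q + Real.log M)) = (q * M) ^ D := by
      rw [← Real.log_mul hq0.ne' hM0.ne', mul_comm, Real.exp_mul, Real.exp_log (by positivity)]
      exact Real.rpow_natCast _ _
    rw [h3, h4, mul_pow]
    ring
  rw [h2]
  apply Real.exp_le_exp.mpr
  have hlq : 0 ≤ Real.log q := Real.log_nonneg (by linarith)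
  have hlM : 0 ≤ Real.log M := Real.log_nonneg hM1
  have hl4 : 0 ≤ Real.log 4 := Real.log_nonneg (by norm_num)
  rw [Real.log_mul (by norm_num) hM0.ne'] at he2
  rw [Real.rpow_add hq0]
  have h5 : (D : ℝ) * (Real.log q + Real.log M) ≤ (q : ℝ) ^ δ * (Real.log q + Real.log M) :=
    mul_le_mul_of_nonneg_right hDle (by linarith)
  have h6 : Real.log 4 + 3 * Real.log q ≤ (q : ℝ) ^ δ * (Real.log 4 + 3 * Real.log q) := by
    nlinarith
  calc Real.log 4 + 3 * Real.log q + D * (Real.log q + Real.log M)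
      ≤ (q : ℝ) ^ δ * (Real.log 4 + 3 * Real.log q) + (q : ℝ) ^ δ * (Real.log q + Real.log M) :=
        add_le_add h6 h5
    _ = (q : ℝ) ^ δ * (Real.log 4 + Real.log M + 4 * Real.log q) := by ring
    _ ≤ (q : ℝ) ^ δ * (q : ℝ) ^ κ := mul_le_mul_of_nonneg_left he2 (by linarith)

end Pool.Agent.SPV.H91
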